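import Pool.Agent.V5helper25.PA.Res
import Pool.Agent.V5helper25.EX.Der
import Pool.Agent.N102.UF.Main

/-!
# MP_3a2b62, circle extensions of ergodic maps: finitely many attractors for a dense set of rotations
-/

set_option autoImplicit false
set_option linter.unusedSectionVars false

open scoped Manifold ContDiff Topology ENNReal
open MeasureTheory Filter Set Metric

universe u v

namespace Pool.Agent.V5helper25.PA

open Pool.Agent.H718R2.G Pool.Agent.W564.SC Pool.Agent.TH80.OMS Pool.Agent.TH290.CL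
  Pool.Agent.N813.OF Pool.Agent.N813.CX Pool.Agent.V5helper25.TK
  Pool.Agent.V5helper25.TG Pool.Agent.V5helper25.EX Pool.Agent.H728R2.FA

section

variable {N : Type u} [MetricSpace N] [CompactSpace N] [MeasurableSpace N] [BorelSpace N]
  {B : Type v} [MetricSpace B] [MeasurableSpace B] [BorelSpace B]
  {F : N ≃ₜ N} {ψ : ℝ → N → N} {a : N → ℝ → ℝ} {A : N → ℝ} {π : N → B} {f : B → B}
  {μ : Measure N} [IsFiniteMeasure μ] {m : Measure B} [IsProbabilityMeasure m]

/-- a transitive attractor over the support of the base measure -/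
theorem att_of_dense (h : TopExt F ψ a) (ho : OrbitMap F ψ π f) (erg : Ergodic f m)
    (h1 : μ.map π ≪ m) (h2 : m ≪ μ.map π) {s : ℝ} {p : N} (hp : π p ∈ m.support)
    (hd : π ⁻¹' m.support ⊆ closure (range fun n : ℕ => (Rt F ψ s)^[n] p)) :
    FiniteAttractors μ (Rt F ψ s) := by
  have hCB : CompactSpace B := ⟨by rw [← ho.surj.range_eq]; exact isCompact_range ho.cont⟩
  have hcl : IsClosed (π ⁻¹' m.support) := Measure.isClosed_support.preimage ho.cont
  have hsemi : ∀ z, π (Rt F ψ s z) = f (π z) := (orbR ho s).semi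
  have hbas : ∀ q, π q ∈ m.support → omegaLim (Rt F ψ s) q ⊆ π ⁻¹' m.support := by
    intro q hq
    have h3 : ∀ n, (Rt F ψ s)^[n] q ∈ π ⁻¹' m.support := by
      intro n
      induction n with
      | zero => exact hq
      | succ n ih =>
        rw [Function.iterate_succ_apply']
        show π (Rt F ψ s _) ∈ m.support
        rw [hsemi]
        exact (supp_image h ho erg _).2 ih
    intro z hz
    rw [← hcl.closure_eq, mem_closure_iff_nhds]
    intro V hV
    obtain ⟨n, -, hn⟩ := hz V hV 0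
    exact ⟨_, hn, h3 n⟩
  have hms : MeasurableSet m.support := Measure.isClosed_support.measurableSet
  refine ⟨1, fun _ => π ⁻¹' m.support, fun _ => ⟨?_, ⟨p, hp, hd⟩, ?_⟩, ?_⟩
  · apply Subset.antisymm
    · rintro _ ⟨z, hz, rfl⟩
      show π (Rt F ψ s z) ∈ m.support
      rw [hsemi]
      exact (supp_image h ho erg _).2 hz
    · intro z hz
      obtain ⟨w, rfl⟩ := Rt_surj h s z
      refine ⟨w, ?_, rfl⟩
      have : π (Rt F ψ s w) ∈ m.support := hz
      rw [hsemi] at this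
      exact (supp_image h ho erg _).1 this
  · have h3 : (μ.map π) m.support ≠ 0 := by
      intro h0
      have h4 := h2 h0
      have h5 : m m.supportᶜ = 0 := Measure.measure_compl_support
      have h6 : m univ = 0 := by
        rw [← union_compl_self m.support]
        exact measure_union_null h4 h5
      rw [measure_univ] at h6
      exact one_ne_zero h6
    rw [Measure.map_apply ho.cont.measurable hms] at h3
    exact (pos_iff_ne_zero.2 h3).trans_le (measure_mono fun q hq => hbas q hq)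
  · have h3 : (μ.map π) m.supportᶜ = 0 := h1 Measure.measure_compl_support
    rw [Measure.map_apply ho.cont.measurable hms.compl] at h3
    refine measure_mono_null ?_ h3
    intro q hq hqs
    exact hq 0 (hbas q hqs)

/-- **The structure of the set of the parameters.** -/
theorem struct (h : TopExt F ψ a) (hAc : Continuous A) (hA0 : ∀ y, 0 < A y)
    (hA : ∀ y, HasDerivAt (a y) (A y) 0) (ho : OrbitMap F ψ π f) (erg : Ergodic f m)
    (hq : ∀ t, μ.map (ψ t) ≪ μ) (h1 : μ.map π ≪ m) (h2 : m ≪ μ.map π) :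
    ∃ U₁ U₂ : Set ℝ, IsOpen U₁ ∧ IsOpen U₂ ∧ Dense (U₁ ∪ U₂) ∧
      (∀ᵐ s : ℝ, s ∈ U₁ → FiniteAttractors μ (Rt F ψ s)) ∧
      ∀ᶠ s in residual ℝ, s ∈ U₂ → FiniteAttractors μ (Rt F ψ s) := by
  set U₁ : Set ℝ := {s | ∃ ε : ℝ, 0 < ε ∧ ∀ n, m (π '' Ga F a (s - ε) (s + ε) n) = 0} with hU₁
  refine ⟨U₁, interior U₁ᶜ, ?_, isOpen_interior, ?_, ?_, ?_⟩
  · rw [Metric.isOpen_iff]
    rintro s ⟨ε, hε, hs⟩
    refine ⟨ε / 2, half_pos hε, fun s' hs' => ⟨ε / 2, half_pos hε, fun n => ?_⟩⟩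
    rw [Metric.mem_ball, Real.dist_eq, abs_lt] at hs'
    refine measure_mono_null (image_mono (Ga_mono h ?_ ?_ n)) (hs n) <;> linarith
  · rw [dense_iff_inter_open]
    intro V hV hVne
    by_cases hVU : (V ∩ U₁).Nonempty
    · obtain ⟨v, hv⟩ := hVU
      exact ⟨v, hv.1, Or.inl hv.2⟩
    · obtain ⟨v, hv⟩ := hVne
      refine ⟨v, hv, Or.inr ?_⟩
      refine mem_interior.2 ⟨V, fun w hw hwU => hVU ⟨w, hw, hwU⟩, hV, hv⟩
  · have h3 : ∀ q : ℚ × ℚ, ∀ᵐ s : ℝ, (∀ n, m (π '' Ga F a q.1 q.2 n) = 0) → (q.1 : ℝ) ≤ s →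
        s ≤ q.2 → FiniteAttractors μ (Rt F ψ s) := by
      intro q
      by_cases hq' : ∀ n, m (π '' Ga F a q.1 q.2 n) = 0
      · filter_upwards [lockN h hAc hA0 hA ho erg hq h1 h2 hq'] with s hs _ using hs
      · exact Eventually.of_forall fun s hc => absurd hc hq'
    filter_upwards [ae_all_iff.2 h3] with s hs
    rintro ⟨ε, hε, hsε⟩
    obtain ⟨q, hq1, hq2⟩ := exists_rat_btwn (show s - ε < s by linarith)
    obtain ⟨q', hq1', hq2'⟩ := exists_rat_btwn (show s < s + ε by linarith)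
    exact hs (q, q') (fun n => measure_mono_null (image_mono (Ga_mono h hq1.le hq2'.le n)) (hsε n))
      hq2.le hq1'.le
  · obtain ⟨p, hp, hres⟩ := resid (I := U₁ᶜ) h ho erg (fun s s' hss hI => by
      by_contra hcon
      push Not at hcon
      refine hI (show (s + s') / 2 ∈ Icc s s' by constructor <;> linarith)
        ⟨(s' - s) / 2, by linarith, fun n => ?_⟩
      have e1 : (s + s') / 2 - (s' - s) / 2 = s := by ring
      have e2 : (s + s') / 2 + (s' - s) / 2 = s' := by ring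
      rw [e1, e2]
      exact hcon n)
    filter_upwards [hres] with s hs hsU
    exact att_of_dense h ho erg h1 h2 hp (hs hsU)

/-- density -/
theorem dense_of_struct {P : ℝ → Prop} {U₁ U₂ : Set ℝ} (h1 : IsOpen U₁) (h2 : IsOpen U₂)
    (hd : Dense (U₁ ∪ U₂)) (ha : ∀ᵐ s : ℝ, s ∈ U₁ → P s)
    (hb : ∀ᶠ s in residual ℝ, s ∈ U₂ → P s) {x y : ℝ} (hxy : x < y) : ∃ s ∈ Ioo x y, P s := by
  obtain ⟨s, hs, hsU⟩ := dense_iff_inter_open.1 hd (Ioo x y) isOpen_Ioo (nonempty_Ioo.2 hxy)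
  rcases hsU with hsU | hsU
  · have hV : IsOpen (Ioo x y ∩ U₁) := isOpen_Ioo.inter h1
    by_contra hcon
    push Not at hcon
    have h3 : ∀ᵐ t : ℝ, t ∉ Ioo x y ∩ U₁ := by
      filter_upwards [ha] with t ht hc
      exact hcon t hc.1 (ht hc.2)
    have h4 := measure_eq_zero_iff_ae_notMem.2 h3
    exact (hV.measure_pos volume ⟨s, hs, hsU⟩).ne' h4
  · have hV : IsOpen (Ioo x y ∩ U₂) := isOpen_Ioo.inter h2
    obtain ⟨t, ht, htP⟩ := dense_iff_inter_open.1 (dense_of_mem_residual hb) _ hV ⟨s, hs, hsU⟩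
    exact ⟨t, ht.1, htP ht.2⟩

end

section

variable {n : ℕ} {N : Type u} [TopologicalSpace N] [T2Space N] [CompactSpace N]
  [ChartedSpace (V n) N] [IsManifold (𝓡 n) ∞ N] [MeasurableSpace N] [BorelSpace N] {r : ℕ∞}

/-- **The main theorem.** -/
theorem mainPA (hr : 1 ≤ r) (F : DiffM n N r) (ψ : ℝ → N → N) (h : CircleExt n N F ψ)
    (B : Type v) [MetricSpace B] [MeasurableSpace B] [BorelSpace B] (π : N → B) (f : B → B)
    (hπ : OrbitMap F ψ π f) (m : Measure B) [IsProbabilityMeasure m] (erg : Ergodic f m)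
    (μ : Measure N) [IsFiniteMeasure μ] (hq : ∀ t, μ.map (ψ t) ≪ μ) (h1 : μ.map π ≪ m)
    (h2 : m ≪ μ.map π) :
    (∃ U₁ U₂ : Set ℝ, IsOpen U₁ ∧ IsOpen U₂ ∧ Dense (U₁ ∪ U₂) ∧
      (∀ᵐ s : ℝ, s ∈ U₁ → FiniteAttractors μ (Rt F ψ s)) ∧
      ∀ᶠ s in residual ℝ, s ∈ U₂ → FiniteAttractors μ (Rt F ψ s)) ∧
    ∀ U : Set (DiffM n N r), IsOpen[strongTop n N r] U → F ∈ U →
      ∃ G ∈ U, CircleExt n N G ψ ∧ OrbitMap G ψ π f ∧ (∃ s, ∀ y, G y = ψ s (F y)) ∧
        FiniteAttractors μ G := by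
  have : SecondCountableTopology N := ChartedSpace.secondCountable_of_sigmaCompact (V n) N
  let _ : MetricSpace N := TopologicalSpace.metrizableSpaceMetric N
  choose a ha using h.fibre
  have top : TopExt F ψ a :=
    ⟨h.flow.smooth.continuous, h.flow.zero, h.flow.add, h.free, fun y t => (ha y).2.2.2.2 t,
      fun y => (ha y).1, fun y => (ha y).2.1, fun y t => (ha y).2.2.2.1 t, fun y => (ha y).2.2.1⟩
  obtain ⟨A, hA1, hA2, hA3⟩ := exists_der hr F h.flow top
  obtain ⟨U₁, U₂, o1, o2, hd, hs1, hs2⟩ := struct (F := F.toHomeomorph) (μ := μ) (m := m)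
    top hA1 hA2 hA3 hπ erg hq h1 h2
  refine ⟨⟨U₁, U₂, o1, o2, hd, hs1, hs2⟩, fun U hU hFU => ?_⟩
  obtain ⟨H, hH, hHe, hH0⟩ := Pool.Agent.N102.UF.flow_fam h.flow r F
  have hCB : CompactSpace B := ⟨by rw [← hπ.surj.range_eq]; exact isCompact_range hπ.cont⟩
  obtain ⟨z, -⟩ : ∃ z : B, z ∈ m.support :=
    Measure.nonempty_support (μ := m) (IsProbabilityMeasure.ne_zero m)
  obtain ⟨z, rfl⟩ := hπ.surj z
  obtain ⟨κ, hκ, hk⟩ := Pool.Agent.TH80.CLX.fam_mem r hr H hH z U hU (by rw [hH0]; exact hFU)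
  obtain ⟨s, hs, hsf⟩ := dense_of_struct o1 o2 hd hs1 hs2 (show -κ < κ by linarith)
  have hHs : (H s : N → N) = Rt F ψ s := funext fun y => hHe s y
  refine ⟨H s, hk s (by rw [Real.norm_eq_abs, abs_lt]; exact hs), ?_, ?_, ⟨s, hHe s⟩, ?_⟩
  · have h3 := topExt_rot top s (hHe s)
    exact ⟨h.flow, h.free, fun y => ⟨a y, h3.acont y, h3.amono y, h3.azero y, h3.aone y, h3.ext y⟩⟩
  · rw [hHs]
    exact orbR (F := F.toHomeomorph) hπ s
  · rw [hHs]
    exact hsf

end

end Pool.Agent.V5helper25.PA
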