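import Pool.Agent.V5helper25.EX.Weak
import Pool.Agent.TH525.PF.Hyp

/-!
# MP_3a2b62, circle extensions: the orbits of the rotated maps
-/

set_option autoImplicit false
set_option linter.unusedSectionVars false

open scoped Topology
open MeasureTheory Filter Set Metric

universe u v

namespace Pool.Agent.V5helper25.PA

open Pool.Agent.TH80.OMS Pool.Agent.N813.CX Pool.Agent.N813.CX.CLOS Pool.Agent.V5helper25.TK
  Pool.Agent.V5helper25.TG Pool.Agent.V5helper25.EX

/-- the position of `(ψ_s ∘ F)^n (ψ_t y)` with respect to `F^n y` -/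
def co {N : Type u} (F : N → N) (a : N → ℝ → ℝ) (s : ℝ) : ℕ → N → ℝ → ℝ
  | 0, _, t => t
  | n + 1, y, t => s + a (F^[n] y) (co F a s n y t)

section

variable {N : Type u} [MetricSpace N] [CompactSpace N] {F : N ≃ₜ N} {ψ : ℝ → N → N} {a : N → ℝ → ℝ}

theorem co_iter (h : TopExt F ψ a) (s : ℝ) (n : ℕ) (y : N) (t : ℝ) :
    (Rt F ψ s)^[n] (ψ t y) = ψ (co F a s n y t) (F^[n] y) := by
  induction n with
  | zero => rfl
  | succ n ih =>
    rw [Function.iterate_succ_apply', ih, Rt_ext h, Function.iterate_succ_apply']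
    rfl

theorem co_mono_t (h : TopExt F ψ a) (s : ℝ) (n : ℕ) (y : N) : Monotone (co F a s n y) := by
  induction n with
  | zero => exact fun _ _ hh => hh
  | succ n ih =>
    intro t t' htt
    exact add_le_add_right ((h.amono _).monotone (ih htt)) s

theorem co_mono_s (h : TopExt F ψ a) {s s' : ℝ} (hs : s ≤ s') (n : ℕ) (y : N) (t : ℝ) :
    co F a s n y t ≤ co F a s' n y t := by
  induction n with
  | zero => exact le_rfl
  | succ n ih => exact add_le_add hs ((h.amono _).monotone ih)

theorem a_int' (h : TopExt F ψ a) (y : N) (t : ℝ) (j : ℤ) : a y (t + j) = a y t + j := by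
  have h2 : Function.Periodic (fun u => a y u - u) 1 := fun u => by
    show a y (u + 1) - (u + 1) = a y u - u
    rw [h.aone]
    ring
  have h3 := h2.int_mul j t
  simp only [mul_one] at h3
  linarith

theorem co_int (h : TopExt F ψ a) (s : ℝ) (n : ℕ) (y : N) (t : ℝ) (j : ℤ) :
    co F a s n y (t + j) = co F a s n y t + j := by
  induction n with
  | zero => rfl
  | succ n ih =>
    show s + a (F^[n] y) (co F a s n y (t + j)) = s + a (F^[n] y) (co F a s n y t) + j
    rw [ih, a_int' h]
    ring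

theorem co_add (s : ℝ) (n k : ℕ) (y : N) (t : ℝ) :
    co F a s (n + k) y t = co F a s k (F^[n] y) (co F a s n y t) := by
  induction k with
  | zero => rfl
  | succ k ih =>
    show s + a (F^[n + k] y) (co F a s (n + k) y t) = s + a (F^[k] (F^[n] y)) _
    rw [ih, ← Function.iterate_add_apply, add_comm k n]

theorem co_cont_s (h : TopExt F ψ a) (n : ℕ) (y : N) (t : ℝ) :
    Continuous fun s => co F a s n y t := by
  induction n with
  | zero => exact continuous_const
  | succ n ih => exact continuous_id.add ((h.acont _).comp ih)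

theorem co_cont_y (h : TopExt F ψ a) (s : ℝ) (n : ℕ) (t : ℝ) :
    Continuous fun y => co F a s n y t := by
  induction n with
  | zero => exact continuous_const
  | succ n ih =>
    exact continuous_const.add ((a_joint h F.continuous).comp
      ((F.continuous.iterate n).prodMk ih))

theorem Rt_zero (h : TopExt F ψ a) : Rt F ψ 0 = F := funext fun _ => h.zero _

theorem iter_shift (h : TopExt F ψ a) (n : ℕ) (y : N) (u : ℝ) :
    F^[n] (ψ u y) = ψ (co F a 0 n y u) (F^[n] y) := by
  have h1 := co_iter h 0 n y u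
  rwa [Rt_zero h] at h1

theorem co_shift (h : TopExt F ψ a) (s : ℝ) (n : ℕ) (y : N) (u t : ℝ) :
    co F a s n (ψ u y) t = co F a s n y (t + u) - co F a 0 n y u := by
  induction n with
  | zero => show t = t + u - u; ring
  | succ n ih =>
    show s + a (F^[n] (ψ u y)) (co F a s n (ψ u y) t) =
      s + a (F^[n] y) (co F a s n y (t + u)) - (0 + a (F^[n] y) (co F a 0 n y u))
    rw [iter_shift h, a_add h, ih]
    rw [sub_add_cancel]
    ring

/-- a difference of at least one -/
def Ga (F : N ≃ₜ N) (a : N → ℝ → ℝ) (s s' : ℝ) (n : ℕ) : Set N :=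
  {y | ∀ t, co F a s n y t + 1 ≤ co F a s' n y t}

theorem Ga_closed (h : TopExt F ψ a) (s s' : ℝ) (n : ℕ) :
    IsClosed (Ga F a s s' n) := by
  have : Ga F a s s' n = ⋂ t, {y | co F a s n y t + 1 ≤ co F a s' n y t} := by
    ext y
    simp [Ga]
  rw [this]
  exact isClosed_iInter fun t =>
    isClosed_le ((co_cont_y h s n t).add continuous_const) (co_cont_y h s' n t)

theorem Ga_psi (h : TopExt F ψ a) {s s' : ℝ} {n : ℕ} {y : N} (hy : y ∈ Ga F a s s' n) (u : ℝ) :
    ψ u y ∈ Ga F a s s' n := by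
  intro t
  rw [co_shift h, co_shift h]
  have := hy (t + u)
  linarith

theorem Ga_not (h : TopExt F ψ a) {s s' : ℝ} {n : ℕ} {y : N} (hy : y ∉ Ga F a s s' n) (t : ℝ) :
    co F a s' n y t < co F a s n y t + 2 := by
  simp only [Ga, mem_ofPred_eq, not_forall, not_le] at hy
  obtain ⟨t₀, ht₀⟩ := hy
  have f1 := Int.floor_le (t₀ - t)
  have f2 := Int.lt_floor_add_one (t₀ - t)
  have g1 := co_mono_t h s' n y (show t + ⌊t₀ - t⌋ ≤ t₀ by linarith)
  have g2 := co_mono_t h s n y (show t₀ ≤ t + ((⌊t₀ - t⌋ + 1 : ℤ) : ℝ) by push_cast; linarith)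
  rw [co_int h] at g1 g2
  push_cast at g2
  linarith

theorem Ga_step (h : TopExt F ψ a) {s s' : ℝ} (hs : s ≤ s') {n : ℕ} {y : N}
    (hy : y ∈ Ga F a s s' n) : y ∈ Ga F a s s' (n + 1) := by
  intro t
  show s + a (F^[n] y) (co F a s n y t) + 1 ≤ s' + a (F^[n] y) (co F a s' n y t)
  have h1 := (h.amono (F^[n] y)).monotone (hy t)
  rw [h.aone] at h1
  linarith

theorem Ga_le (h : TopExt F ψ a) {s s' : ℝ} (hs : s ≤ s') {n k : ℕ} (hnk : n ≤ k) {y : N}
    (hy : y ∈ Ga F a s s' n) : y ∈ Ga F a s s' k := by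
  induction k, hnk using Nat.le_induction with
  | base => exact hy
  | succ k _ ih => exact Ga_step h hs ih

theorem Ga_visit (h : TopExt F ψ a) {s s' : ℝ} (hs : s ≤ s') {n k : ℕ} {y : N}
    (hy : F^[n] y ∈ Ga F a s s' k) : y ∈ Ga F a s s' (n + k) := by
  intro t
  rw [co_add, co_add]
  exact (hy _).trans (co_mono_t h s' k _ (co_mono_s h hs n y t))

end

end Pool.Agent.V5helper25.PA
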