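import Pool.Agent.TH525.PF.Hyp

/-!
# MP_3a2b62, circle extensions: finitely many attractors from graphs, in a general phase space
-/

set_option autoImplicit false

open Set Filter Topology MeasureTheory

namespace Pool.Agent.V5helper25.PA

open Pool.Agent.H728R2.OS Pool.Agent.H728R2.FA Pool.Agent.TH525.PF

section

variable {Y : Type*} [MeasurableSpace Y] {ν : Measure Y} [IsProbabilityMeasure ν]
  {Z : Type*} [MetricSpace Z] [CompactSpace Z] [MeasurableSpace Z] [BorelSpace Z]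

/-- **Finitely many attractors**, for a system whose phase space `Z` is covered by the fibres
`t ↦ Φ y t` over an extended base `Y`. -/
theorem fa_general (S : Sys Y) (erg : Ergodic S.T ν) (g : Z ≃ₜ Z) (Φ : Y → ℝ → Z)
    (mΦ : Measurable (Function.uncurry Φ)) (hst : ∀ y t, g (Φ y t) = Φ (S.T y) (S.F y t))
    (hper : ∀ y t (k : ℤ), Φ y (t + k) = Φ y t)
    (huc : ∀ ε : ℝ, 0 < ε → ∃ δ : ℝ, 0 < δ ∧ ∀ y t t', |t - t'| < δ → dist (Φ y t) (Φ y t') < ε)
    (per : ∀ x y, S.F x (y + 1) = S.F x y + 1)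
    (hno : ∀ φ, S.Gr ν φ → S.ex ν φ ≠ 0) {α : Y → ℝ} (hα : S.Gr ν α)
    (μ : Measure Z)
    (U1 : ∀ P : Set Z, MeasurableSet P → (∀ᵐ y ∂ν, ∀ᵐ t : ℝ, Φ y t ∈ P) → μ Pᶜ = 0)
    (U2 : ∀ Q : Set Z, μ Q = 0 → ∀ᵐ y ∂ν, ∀ᵐ t : ℝ, Φ y t ∉ Q) :
    FiniteAttractors μ g := by
  classical
  obtain ⟨A, hA, hdyn⟩ := S.dyn erg per hno hα
  -- asymptotic orbits
  have hit : ∀ (n : ℕ) (y : Y) (t : ℝ), g^[n] (Φ y t) = Φ (S.T^[n] y) (S.it n y t) := by
    intro n y t
    induction n with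
    | zero => rfl
    | succ n ih =>
      rw [Function.iterate_succ_apply', ih, hst, Function.iterate_succ_apply', Sys.it_succ]
  have hstep : ∀ φ, S.Gr ν φ → ∀ᵐ y ∂ν, ∀ n : ℕ,
      g^[n] (Φ y (φ y)) = Φ (S.T^[n] y) (φ (S.T^[n] y)) := by
    intro φ hφ
    filter_upwards [hφ.iter S erg] with x hx n
    rw [hit, hx n]
  have hdist : ∀ φ, S.Gr ν φ → ∀ᵐ y ∂ν, ∀ t : ℝ, S.Cv φ y t →
      Tendsto (fun n => dist (g^[n] (Φ y t)) (g^[n] (Φ y (φ y)))) atTop (𝓝 0) := by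
    intro φ hφ
    filter_upwards [hstep φ hφ] with x hx t ht
    rw [Metric.tendsto_atTop]
    intro ε hε
    obtain ⟨δ, hδ, h1⟩ := huc ε hε
    obtain ⟨N, hN⟩ := (Metric.tendsto_atTop.1 ht) δ hδ
    refine ⟨N, fun n hn => ?_⟩
    have h2 := hN n hn
    rw [Real.dist_eq, sub_zero] at h2
    rw [Real.dist_eq, sub_zero, abs_of_nonneg dist_nonneg, hx n, hit]
    exact h1 _ _ _ h2
  -- the attractors
  have hatt : ∀ φ : Y → ℝ, ∃ Λ : Set Z, S.Gr ν φ → (IsClosed Λ ∧ g '' Λ = Λ ∧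
      (∃ x ∈ Λ, Λ ⊆ closure (range fun n : ℕ => g^[n] x)) ∧
      (∀ᵐ y ∂ν, omegaLim g (Φ y (φ y)) = Λ) ∧ ∀ᵐ y ∂ν, Φ y (φ y) ∈ Λ) := by
    intro φ
    by_cases h : S.Gr ν φ
    · obtain ⟨Λ, h1⟩ := factor_attractor erg g (fun y => Φ y (φ y))
        (mΦ.comp (measurable_id.prodMk h.1)) (hstep φ h)
      exact ⟨Λ, fun _ => h1⟩
    · exact ⟨∅, fun h' => absurd h' h⟩
  choose Λ hΛ using hatt
  set A' := A.filter fun φ => S.ex ν φ < 0 with hA'
  set e := A'.equivFin with he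
  refine ⟨A'.card, fun i => Λ (e.symm i), ?_, ?_⟩
  · intro i
    set φ : Y → ℝ := (e.symm i : Y → ℝ) with hφdef
    have hφA : φ ∈ A' := (e.symm i).2
    rw [hA', Finset.mem_filter] at hφA
    have hφ := hA φ hφA.1
    obtain ⟨h0, h1, h2, h3, -⟩ := hΛ φ hφ
    refine ⟨h1, h2, ?_⟩
    rw [pos_iff_ne_zero]
    intro h0
    obtain ⟨x, hx1, hx2, hx3, hx4⟩ :=
      ((U2 _ h0).and ((S.local_att erg hφ hφA.2).and ((hdist φ hφ).and h3))).exists
    obtain ⟨δ, hδ, hloc⟩ := hx2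
    have h6 : Metric.ball (φ x) δ ⊆ {t : ℝ | ¬ Φ x t ∉ {p | omegaLim g p ⊆ Λ φ}} := by
      intro t ht
      rw [Metric.mem_ball, Real.dist_eq] at ht
      have h8 := omega_eq (hx3 t (hloc t ht))
      have h9 : Φ x t ∈ {p | omegaLim g p ⊆ Λ φ} := by
        show omegaLim g (Φ x t) ⊆ Λ φ
        rw [h8, hx4]
      exact not_not.2 h9
    have h10 : (volume : Measure ℝ) (Metric.ball (φ x) δ) = 0 :=
      measure_mono_null h6 (ae_iff.1 hx1)
    exact (Metric.isOpen_ball.measure_pos volume ⟨_, Metric.mem_ball_self hδ⟩).ne' h10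
  · -- the good set
    set P : Set Z := {p | ∃ i : Fin A'.card,
      Tendsto (fun n => Metric.infDist (g^[n] p) (Λ (e.symm i))) atTop (𝓝 0)} with hP
    have mP : MeasurableSet P := by
      have : P = ⋃ i : Fin A'.card,
          {p | Tendsto (fun n => Metric.infDist (g^[n] p) (Λ (e.symm i))) atTop (𝓝 0)} := by
        ext p; simp [hP]
      rw [this]
      refine MeasurableSet.iUnion fun i => ?_
      refine measurableSet_tendsto (𝓝 0) fun n => ?_
      exact ((Metric.continuous_infDist_pt _).comp (g.continuous.iterate n)).measurable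
    have hPsub : ∀ p ∈ P, ∃ i : Fin A'.card, omegaLim g p ⊆ Λ (e.symm i) := by
      rintro p ⟨i, hi⟩
      have hφA : ((e.symm i : Y → ℝ)) ∈ A := (Finset.mem_filter.1 (e.symm i).2).1
      obtain ⟨h0, h1, ⟨q, hq, -⟩, h3, -⟩ := hΛ _ (hA _ hφA)
      exact ⟨i, omega_sub_of g p h0 ⟨q, hq⟩ hi⟩
    have hz : ∀ᵐ y ∂ν, ∀ᵐ t : ℝ, Φ y t ∈ P := by
      have a1 : ∀ᵐ z ∂ν, ∀ φ ∈ A, (∀ y : ℝ, S.Cv φ z y →
          Tendsto (fun n => dist (g^[n] (Φ z y)) (g^[n] (Φ z (φ z)))) atTop (𝓝 0)) ∧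
          (∀ n : ℕ, g^[n] (Φ z (φ z)) ∈ Λ φ) := by
        refine (Filter.eventually_all_finset A).2 fun φ hφ => ?_
        obtain ⟨h0, h1, h2, h3, h4⟩ := hΛ φ (hA φ hφ)
        refine (hdist φ (hA φ hφ)).and ?_
        filter_upwards [h4] with z hz n
        induction n with
        | zero => exact hz
        | succ n ih =>
          rw [Function.iterate_succ_apply', ← h1]
          exact mem_image_of_mem _ ih
      filter_upwards [hdyn, a1] with z b1 b2
      have hfin : ∀ᵐ t : ℝ, ∀ φ ∈ A, ∀ k : ℤ, t ≠ φ z + k := by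
        refine (Filter.eventually_all_finset A).2 fun φ hφ => ?_
        rw [ae_all_iff]
        intro k
        exact Measure.ae_ne volume _
      filter_upwards [hfin] with t ht
      have c1 : Φ z (t - ⌊t - α z⌋) = Φ z t := by
        have := hper z (t - ⌊t - α z⌋) ⌊t - α z⌋
        rw [sub_add_cancel] at this
        exact this.symm
      have c2 := Int.floor_le (t - α z)
      have c3 := Int.lt_floor_add_one (t - α z)
      rcases b1 (t - ⌊t - α z⌋) (by linarith) (by linarith) with ⟨ψ, hψ, hneg, hcv⟩ | ⟨ψ, hψ, hyψ⟩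
      · have hψ' : ψ ∈ A' := Finset.mem_filter.2 ⟨hψ, hneg⟩
        refine ⟨e ⟨ψ, hψ'⟩, ?_⟩
        rw [e.symm_apply_apply]
        have h7 := (b2 ψ hψ).1 _ hcv
        rw [c1] at h7
        refine squeeze_zero (fun _ => Metric.infDist_nonneg) (fun n => ?_) h7
        exact Metric.infDist_le_dist_of_mem ((b2 ψ hψ).2 n)
      · exact absurd (by rw [← hyψ]; ring) (ht ψ hψ ⌊t - α z⌋)
    refine measure_mono_null ?_ (U1 P mP hz)
    intro p hp hpP
    obtain ⟨i, hi⟩ := hPsub p hpP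
    exact hp i hi

end

end Pool.Agent.V5helper25.PA
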