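import Pool.Agent.V5helper25.PA.Tr
import Pool.Agent.V5helper25.PA.Gen

/-!
# MP_3a2b62, circle extensions: parameters between two parameters with the same rotation number
-/

set_option autoImplicit false
set_option linter.unusedSectionVars false

open scoped Topology ENNReal
open MeasureTheory Filter Set Metric

universe u v

namespace Pool.Agent.V5helper25.PA

open Pool.Agent.TH80.OMS Pool.Agent.N813.CX Pool.Agent.N813.CX.CLOS Pool.Agent.V5helper25.TK
  Pool.Agent.V5helper25.TG Pool.Agent.V5helper25.EX Pool.Agent.H728R2.FA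
  Pool.Agent.TH525.PF

section

variable {N : Type u} [MetricSpace N] [CompactSpace N]
  {F : N ≃ₜ N} {ψ : ℝ → N → N} {a : N → ℝ → ℝ}

/-- `ψ_s ∘ F` as a homeomorphism -/
def rtH (h : TopExt F ψ a) (s : ℝ) : N ≃ₜ N where
  toFun := Rt F ψ s
  invFun := fun y => F.symm (ψ (-s) y)
  left_inv := fun y => by
    show F.symm (ψ (-s) (ψ s (F y))) = y
    rw [← h.add, neg_add_cancel, h.zero, F.symm_apply_apply]
  right_inv := fun y => by
    show ψ s (F (F.symm (ψ (-s) y))) = y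
    rw [F.apply_symm_apply, ← h.add, add_neg_cancel, h.zero]
  continuous_toFun := Rt_cont h s
  continuous_invFun := F.symm.continuous.comp (h.cont.comp (continuous_const.prodMk continuous_id))

variable [MeasurableSpace N] [BorelSpace N] {A : N → ℝ}

/-- the system over `N` -/
theorem exists_sysN (h : TopExt F ψ a) (hAc : Continuous A) (hA0 : ∀ y, 0 < A y)
    (hA : ∀ y, HasDerivAt (a y) (A y) 0) (s₀ : ℝ) :
    ∃ S : Sys N, (∀ y, S.T y = Rt F ψ s₀ y) ∧ S.F = a := by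
  obtain ⟨C, hC⟩ := log_bound hAc hA0
  have hC0 : ∀ y, |Real.log (A y)| ≤ |C| := fun y => (hC y).trans (le_abs_self C)
  have hcj : Continuous fun q : N × ℝ => A (ψ q.2 q.1) := hAc.comp (h.cont.comp continuous_swap)
  refine ⟨⟨(rtH h s₀).toMeasurableEquiv, a, fun y t => A (ψ t y), Real.exp |C|,
    (a_joint h F.continuous).measurable, hcj.measurable, fun y t => a_der h hA y t,
    Real.one_le_exp (abs_nonneg C), ?_, ?_, ?_⟩, fun y => rfl, rfl⟩
  · intro y t
    rw [← Real.exp_neg, ← Real.le_log_iff_exp_le (hA0 _)]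
    exact (abs_le.1 (hC0 _)).1
  · intro y t
    rw [← Real.log_le_iff_le_exp (hA0 _)]
    exact (abs_le.1 (hC0 _)).2
  · intro c hc
    obtain ⟨η, hη, h1⟩ := A_close h hAc hA0 hc
    refine ⟨η, hη, fun y t t' htt => ?_⟩
    obtain ⟨h2, h3⟩ := h1 (ψ t' y) (t - t') htt
    rw [← h.add, sub_add_cancel] at h2 h3
    have h4 := Real.log_le_log (hA0 _) h2
    have h5 := Real.log_le_log (hA0 _) h3
    rw [Real.log_mul (Real.exp_pos _).ne' (hA0 _).ne', Real.log_exp] at h4 h5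
    rw [abs_le]
    constructor <;> linarith

/-- the orbits of the system -/
theorem it_eq (h : TopExt F ψ a) {s₀ : ℝ} {S : Sys N} (hT : ∀ y, S.T y = Rt F ψ s₀ y)
    (hF : S.F = a) (σ : ℝ) (n : ℕ) (y : N) (t : ℝ) :
    (S.add σ).it n y t = co F a (s₀ + σ) n y t - co F a s₀ n y 0 := by
  have hTn : ∀ n, S.T^[n] y = ψ (co F a s₀ n y 0) (F^[n] y) := by
    intro n
    have h1 := co_iter h s₀ n y 0
    rw [h.zero] at h1
    rw [← h1]
    have : (S.T : N → N) = Rt F ψ s₀ := funext hT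
    rw [this]
  induction n with
  | zero => show t = t - 0; ring
  | succ n ih =>
    rw [Sys.it_succ, Sys.add_F, Sys.add_T, hTn, hF, ih, a_add h, sub_add_cancel]
    show _ = s₀ + σ + a (F^[n] y) _ - (s₀ + a (F^[n] y) _)
    ring

variable {B : Type v} [MetricSpace B] [MeasurableSpace B] [BorelSpace B] {π : N → B} {f : B → B}
  {μ : Measure N} [IsFiniteMeasure μ] {m : Measure B} [IsProbabilityMeasure m]

/-- **Between two parameters with the same rotation number** almost every parameter has finitely many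
attractors. -/
theorem lockN (h : TopExt F ψ a) (hAc : Continuous A) (hA0 : ∀ y, 0 < A y)
    (hA : ∀ y, HasDerivAt (a y) (A y) 0) (ho : OrbitMap F ψ π f) (erg : Ergodic f m)
    (hq : ∀ t, μ.map (ψ t) ≪ μ) (h1 : μ.map π ≪ m) (h2 : m ≪ μ.map π) {s₀ s₁ : ℝ}
    (hG : ∀ n, m (π '' Ga F a s₀ s₁ n) = 0) :
    ∀ᵐ s : ℝ, s₀ ≤ s → s ≤ s₁ → FiniteAttractors μ (Rt F ψ s) := by
  have hCB : CompactSpace B := ⟨by rw [← ho.surj.range_eq]; exact isCompact_range ho.cont⟩
  obtain ⟨S, hT, hF⟩ := exists_sysN h hAc hA0 hA s₀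
  obtain ⟨μ₀, hμ₀, hμ₀'⟩ := exists_lift (μ := μ) ho.cont h2
  have hsemi : ∀ z, π (Rt F ψ s₀ z) = f (π z) := (orbR ho s₀).semi
  obtain ⟨ν, hν1, hν2, hν3⟩ := exists_erg_lift (Rt_cont h s₀) ho.cont hsemi erg hμ₀'
  have hTT : (S.T : N → N) = Rt F ψ s₀ := funext hT
  have ergS : Ergodic S.T ν := by rw [hTT]; exact hν2
  have per : ∀ x y, S.F x (y + 1) = S.F x y + 1 := by rw [hF]; exact h.aone
  have hsard := S.sard ergS
  -- almost every parameter
  have hae : ∀ᵐ s : ℝ, s - s₀ ∉ {σ : ℝ | ∃ φ, (S.add σ).Gr ν φ ∧ S.ex ν φ = 0} := by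
    have h3 : ∀ᵐ σ : ℝ, σ ∉ {σ : ℝ | ∃ φ, (S.add σ).Gr ν φ ∧ S.ex ν φ = 0} :=
      measure_eq_zero_iff_ae_notMem.1 hsard
    exact (measurePreserving_sub_right volume s₀).quasiMeasurePreserving.ae h3
  filter_upwards [hae] with s hs hs0 hs1
  -- the system is locked
  have hmeas : ∀ n, MeasurableSet (π '' Ga F a s₀ s₁ n) := fun n =>
    ((Ga_closed h s₀ s₁ n).isCompact.image ho.cont).isClosed.measurableSet
  have hν4 : ∀ᵐ y ∂ν, ∀ n, y ∉ Ga F a s₀ s₁ n := by
    rw [ae_all_iff]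
    intro n
    have h3 : ∀ᵐ x ∂m, x ∉ π '' Ga F a s₀ s₁ n := measure_eq_zero_iff_ae_notMem.1 (hG n)
    have hQ : Measure.QuasiMeasurePreserving π ν m :=
      ⟨ho.cont.measurable, hν3 ▸ Measure.AbsolutelyContinuous.rfl⟩
    filter_upwards [hQ.ae h3] with y hy hc
    exact hy ⟨y, hc, rfl⟩
  have hlock : S.Locked ν 0 (s₁ - s₀) := by
    filter_upwards [hν4] with y hy
    have hb : ∀ n : ℕ, 0 ≤ S.dif 0 (s₁ - s₀) n y ∧ S.dif 0 (s₁ - s₀) n y ≤ 2 := by
      intro n
      have e1 : S.dif 0 (s₁ - s₀) n y = co F a s₁ n y 0 - co F a s₀ n y 0 := by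
        rw [Sys.dif, it_eq h hT hF, it_eq h hT hF, add_zero, add_sub_cancel]
        ring
      have h3 := Ga_not h (hy n) 0
      have h4 := co_mono_s h (hs0.trans hs1) n y 0
      rw [e1]
      constructor <;> linarith
    refine squeeze_zero (g := fun n : ℕ => 2 / (n : ℝ))
      (fun n => div_nonneg (hb n).1 (Nat.cast_nonneg n)) (fun n =>
      div_le_div_of_nonneg_right (hb n).2 (Nat.cast_nonneg n)) ?_
    exact tendsto_const_div_atTop_nhds_zero_nat 2
  have hα : (S.add (s - s₀)).Gr ν (fun y => S.wave 0 (s - s₀) y 0) := by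
    refine ⟨(S.wave_meas 0 (s - s₀)).comp (measurable_id.prodMk measurable_const), ?_⟩
    have hsp := S.wave_spec ergS per (show (0 : ℝ) ≤ s - s₀ by linarith)
      (show s - s₀ ≤ s₁ - s₀ by linarith) hlock
    filter_upwards [hsp] with y hy
    have h3 := (hy 0).1
    rw [Sys.add_F, Sys.add_T, h3, hF, h.azero, add_zero]
  refine fa_general (ν := ν) (S.add (s - s₀)) ergS (rtH h s) (fun y t => ψ t y) ?_ ?_ ?_ ?_ ?_ ?_ hα μ
    ?_ ?_
  · exact (h.cont.comp continuous_swap).measurable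
  · intro y t
    rw [Sys.add_T, Sys.add_F, hT, hF]
    show Rt F ψ s (ψ t y) = ψ (a y t + (s - s₀)) (ψ s₀ (F y))
    rw [Rt_ext h, ← h.add]
    congr 1
    ring
  · intro y t k
    have : ψ ((t : ℝ) + k) y = ψ t (ψ (k : ℝ) y) := h.add _ _ _
    show ψ (t + k) y = ψ t y
    rw [this, (h.free y k).2 ⟨k, rfl⟩]
  · intro ε hε
    obtain ⟨δ, hδ, h3⟩ := psi_small h hε
    refine ⟨δ, hδ, fun y t t' htt => ?_⟩
    have h4 := h3 (ψ t' y) (t - t') htt
    rwa [← h.add, sub_add_cancel] at h4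
  · intro x y
    rw [Sys.add_F, Sys.add_F, per]
    ring
  · intro φ hφ h0
    exact hs ⟨φ, hφ, h0⟩
  · intro P hP hz
    exact U1 h ho hq (by rw [hν3]; exact h1) hP hz
  · intro Q hQ
    exact U2 h ho hq (by rw [hν3]; exact h2) hQ

end

end Pool.Agent.V5helper25.PA
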