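import Pool.Agent.V5helper25.PA.Lk

/-!
# MP_3a2b62, circle extensions: parameters at which the rotation number moves
-/

set_option autoImplicit false
set_option linter.unusedSectionVars false

open scoped Topology ENNReal
open MeasureTheory Filter Set Metric

universe u v

namespace Pool.Agent.V5helper25.PA

open Pool.Agent.TH80.OMS Pool.Agent.N813.CX Pool.Agent.N813.CX.CLOS Pool.Agent.V5helper25.TK
  Pool.Agent.V5helper25.TG Pool.Agent.V5helper25.EX Pool.Agent.H728R2.FA
  Pool.Agent.TH525.PF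

section erg

variable {B : Type v} [MeasurableSpace B] {f : B → B} {m : Measure B} [IsProbabilityMeasure m]

/-- almost every orbit visits a set of positive measure infinitely often -/
theorem visits (erg : Ergodic f m) {W : Set B} (hW : MeasurableSet W) (h0 : m W ≠ 0) :
    ∀ᵐ x ∂m, ∃ᶠ n in atTop, f^[n] x ∈ W := by
  set A : Set B := {x | ∃ᶠ n in atTop, f^[n] x ∈ W} with hA
  have hAm : MeasurableSet A := by
    have : A = limsup (fun n => {x | f^[n] x ∈ W}) atTop := by
      ext x
      simp only [A, mem_ofPred_eq, mem_limsup_iff_frequently_mem]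
    rw [this]
    exact MeasurableSet.measurableSet_limsup fun n => (erg.measurable.iterate n) hW
  have hinv : f ⁻¹' A = A := by
    ext x
    simp only [A, mem_preimage, mem_ofPred_eq]
    have h1 : ∀ n : ℕ, f^[n] (f x) = f^[n + 1] x := fun n => (Function.iterate_succ_apply f n x).symm
    simp only [h1]
    constructor
    · intro h
      rw [frequently_atTop] at h ⊢
      intro a
      obtain ⟨b, hb, hb2⟩ := h a
      exact ⟨b + 1, by omega, hb2⟩
    · intro h
      rw [frequently_atTop] at h ⊢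
      intro a
      obtain ⟨b, hb, hb2⟩ := h (a + 1)
      obtain ⟨k, rfl⟩ : ∃ k, b = k + 1 := ⟨b - 1, by omega⟩
      exact ⟨k, by omega, hb2⟩
  rcases erg.toPreErgodic.ae_empty_or_univ hAm hinv with h | h
  · exfalso
    have h1 := erg.toMeasurePreserving.conservative.ae_mem_imp_frequently_image_mem
      hW.nullMeasurableSet
    have h2 : ∀ᵐ x ∂m, x ∉ A := measure_eq_zero_iff_ae_notMem.1 (ae_eq_empty.1 h)
    refine h0 (measure_eq_zero_iff_ae_notMem.2 ?_)
    filter_upwards [h1, h2] with x a1 a2 a3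
    exact a2 (a1 a3)
  · have := ae_eq_univ.1 h
    rwa [ae_iff]

end erg

section

variable {N : Type u} [MetricSpace N] [CompactSpace N]
  {B : Type v} [MetricSpace B] [MeasurableSpace B] [BorelSpace B]
  {F : N ≃ₜ N} {ψ : ℝ → N → N} {a : N → ℝ → ℝ} {π : N → B} {f : B → B}
  {m : Measure B} [IsProbabilityMeasure m]

theorem pi_open (h : TopExt F ψ a) (ho : OrbitMap F ψ π f) : IsOpenMap π := by
  intro U hU
  have hq : Topology.IsQuotientMap π := ho.cont.isClosedMap.isQuotientMap ho.cont ho.surj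
  rw [← hq.isOpen_preimage]
  have : π ⁻¹' (π '' U) = ⋃ t : ℝ, ψ t ⁻¹' U := by
    ext y
    simp only [mem_preimage, mem_image, mem_iUnion]
    constructor
    · rintro ⟨z, hz, hzy⟩
      obtain ⟨t, rfl⟩ := (ho.eq z y).1 hzy
      refine ⟨-t, ?_⟩
      rwa [← h.add, neg_add_cancel, h.zero]
    · rintro ⟨t, ht⟩
      exact ⟨ψ t y, ht, pi_psi ho t y⟩
  rw [this]
  exact isOpen_iUnion fun t => hU.preimage (h.cont.comp (continuous_const.prodMk continuous_id))

theorem f_cont (ho : OrbitMap F ψ π f) : Continuous f := by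
  have hq : Topology.IsQuotientMap π := ho.cont.isClosedMap.isQuotientMap ho.cont ho.surj
  rw [hq.continuous_iff]
  have : f ∘ π = π ∘ F := funext fun y => (ho.semi y).symm
  rw [this]
  exact ho.cont.comp F.continuous

/-- the support is invariant -/
theorem supp_image (h : TopExt F ψ a) (ho : OrbitMap F ψ π f) (erg : Ergodic f m) (x : B) :
    f x ∈ m.support ↔ x ∈ m.support := by
  have hCB : CompactSpace B := ⟨by rw [← ho.surj.range_eq]; exact isCompact_range ho.cont⟩
  have hfc := f_cont ho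
  have hfi := f_inj h ho
  have h1 : ∀ x ∈ m.support, f x ∈ m.support := by
    intro x hx
    rw [Measure.mem_support_iff_forall] at hx ⊢
    intro U hU
    obtain ⟨V, hVU, hV, hxV⟩ := _root_.mem_nhds_iff.1 hU
    have h2 := hx (f ⁻¹' V) (hfc.continuousAt (hV.mem_nhds hxV))
    rw [erg.toMeasurePreserving.measure_preimage hV.measurableSet.nullMeasurableSet] at h2
    exact h2.trans_le (measure_mono hVU)
  refine ⟨fun hx => ?_, h1 x⟩
  have h2 : IsClosed (f '' m.support) :=
    (Measure.isClosed_support.isCompact.image hfc).isClosed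
  have h3 : m (f '' m.support)ᶜ = 0 := by
    rw [← erg.toMeasurePreserving.measure_preimage h2.measurableSet.compl.nullMeasurableSet]
    refine measure_mono_null ?_ (Measure.measure_compl_support (μ := m))
    intro y hy hys
    exact hy ⟨y, hys, rfl⟩
  have h4 : m.support ⊆ f '' m.support := Measure.support_subset_of_isClosed h2 h3
  obtain ⟨z, hz, hzx⟩ := h4 hx
  rwa [← hfi hzx]

theorem Ga_mono (h : TopExt F ψ a) {s s' q q' : ℝ} (h1 : s ≤ q) (h2 : q' ≤ s') (n : ℕ) :
    Ga F a q q' n ⊆ Ga F a s s' n := by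
  intro y hy t
  have a1 := co_mono_s h h1 n y t
  have a2 := co_mono_s h h2 n y t
  have a3 := hy t
  linarith

/-- hitting an open set at a suitable parameter -/
theorem hit (h : TopExt F ψ a) (ho : OrbitMap F ψ π f) {q q' : ℝ} (hqq : q ≤ q') {p : N} {n : ℕ}
    (hp : p ∈ Ga F a q q' n) {W : Set N} (hW : f^[n] (π p) ∈ π '' W) :
    ∃ s ∈ Icc q q', (Rt F ψ s)^[n] p ∈ W := by
  obtain ⟨w, hw, hwp⟩ := hW
  have h1 : π (F^[n] p) = f^[n] (π p) := CLOS.semi_iter ho n p
  rw [← h1] at hwp
  obtain ⟨c, hc⟩ := (ho.eq (F^[n] p) w).1 hwp.symm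
  set u := co F a q n p 0 with hu
  have f1 := Int.lt_floor_add_one (u - c)
  have f2 := Int.floor_le (u - c)
  have h2 := hp 0
  have h3 : c + ((⌊u - c⌋ + 1 : ℤ) : ℝ) ∈ Icc (co F a q n p 0) (co F a q' n p 0) := by
    push_cast
    constructor <;> linarith
  obtain ⟨s, hs, hsv⟩ := intermediate_value_Icc hqq (co_cont_s h n p 0).continuousOn h3
  refine ⟨s, hs, ?_⟩
  have h4 := co_iter h s n p 0
  rw [h.zero] at h4
  have hsv' : co F a s n p 0 = c + ((⌊u - c⌋ + 1 : ℤ) : ℝ) := hsv
  rw [h4, hsv', (psi_eq h _ (c + ((⌊u - c⌋ + 1 : ℤ) : ℝ)) c).2 ⟨_, rfl⟩, ← hc]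
  exact hw

/-- **The residual set.** For a suitable point `p` and most parameters `s` of an open set in which no
interval is locked, the orbit of `p` is dense over the support of `m`. -/
theorem resid (h : TopExt F ψ a) (ho : OrbitMap F ψ π f) (erg : Ergodic f m) {I : Set ℝ}
    (hno : ∀ s s', s < s' → Icc s s' ⊆ I → ∃ n, m (π '' Ga F a s s' n) ≠ 0) :
    ∃ p : N, π p ∈ m.support ∧ ∀ᶠ s in residual ℝ, s ∈ interior I →
      π ⁻¹' m.support ⊆ closure (range fun n : ℕ => (Rt F ψ s)^[n] p) := by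
  have hCB : CompactSpace B := ⟨by rw [← ho.surj.range_eq]; exact isCompact_range ho.cont⟩
  set 𝓑 := TopologicalSpace.countableBasis N with h𝓑
  have hBc : 𝓑.Countable := TopologicalSpace.countable_countableBasis _
  have hBb : TopologicalSpace.IsTopologicalBasis 𝓑 := TopologicalSpace.isBasis_countableBasis _
  have hop := pi_open h ho
  -- a typical point of the base
  have h1 : ∀ᵐ x ∂m, ∀ W ∈ 𝓑, m (π '' W) ≠ 0 → ∃ᶠ n in atTop, f^[n] x ∈ π '' W := by
    rw [ae_ball_iff hBc]
    intro W hW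
    by_cases h0 : m (π '' W) = 0
    · exact Eventually.of_forall fun x hc => absurd h0 hc
    · filter_upwards [visits erg (hop W (hBb.isOpen hW)).measurableSet h0] with x hx _ using hx
  have h2 : ∀ᵐ x ∂m, ∀ q : ℚ × ℚ, (∃ n, m (π '' Ga F a q.1 q.2 n) ≠ 0) →
      ∃ k n, f^[k] x ∈ π '' Ga F a q.1 q.2 n := by
    rw [ae_all_iff]
    intro q
    by_cases h0 : ∃ n, m (π '' Ga F a q.1 q.2 n) ≠ 0
    · obtain ⟨n, hn⟩ := h0
      have hm : MeasurableSet (π '' Ga F a q.1 q.2 n) :=
        ((Ga_closed h _ _ n).isCompact.image ho.cont).isClosed.measurableSet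
      filter_upwards [visits erg hm hn] with x hx _
      obtain ⟨k, hk⟩ := hx.exists
      exact ⟨k, n, hk⟩
    · exact Eventually.of_forall fun x hc => absurd hc h0
  have h3 : ∀ᵐ x ∂m, x ∈ m.support := Measure.support_mem_ae
  obtain ⟨x, hx1, hx2, hx3⟩ := (h1.and (h2.and h3)).exists
  obtain ⟨p, rfl⟩ := ho.surj x
  refine ⟨p, hx3, ?_⟩
  have hGap : ∀ q : ℚ × ℚ, (q.1 : ℝ) < q.2 → Icc (q.1 : ℝ) q.2 ⊆ I →
      ∃ n, ∀ k, n ≤ k → p ∈ Ga F a q.1 q.2 k := by
    intro q hq hqI
    obtain ⟨k, n, hk⟩ := hx2 q (hno _ _ hq hqI)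
    obtain ⟨w, hw, hwp⟩ := hk
    rw [← CLOS.semi_iter ho] at hwp
    obtain ⟨c, hc⟩ := (ho.eq w (F^[k] p)).1 hwp
    have h4 : F^[k] p ∈ Ga F a q.1 q.2 n := by rw [hc]; exact Ga_psi h hw c
    exact ⟨k + n, fun l hl => Ga_le h hq.le hl (Ga_visit h hq.le h4)⟩
  -- the residual set
  have hres : ∀ᶠ s in residual ℝ, ∀ W ∈ 𝓑, (W ∩ π ⁻¹' m.support).Nonempty → s ∈ interior I →
      ∃ n, (Rt F ψ s)^[n] p ∈ W := by
    rw [eventually_countable_ball hBc]
    intro W hW
    by_cases hne : (W ∩ π ⁻¹' m.support).Nonempty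
    · obtain ⟨w, hw, hws⟩ := hne
      have hWo := hBb.isOpen hW
      have hm0 : m (π '' W) ≠ 0 := by
        have := (Measure.mem_support_iff_forall (π w)).1 hws (π '' W)
          ((hop W hWo).mem_nhds ⟨w, hw, rfl⟩)
        exact this.ne'
      have hfreq := hx1 W hW hm0
      set G : Set ℝ := {s | ∃ n, (Rt F ψ s)^[n] p ∈ W} with hG
      have hGo : IsOpen G := by
        have : G = ⋃ n, (fun s => ψ (co F a s n p 0) (F^[n] p)) ⁻¹' W := by
          ext s
          simp only [hG, mem_ofPred_eq, mem_iUnion, mem_preimage]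
          have h5 : ∀ n, (Rt F ψ s)^[n] p = ψ (co F a s n p 0) (F^[n] p) := by
            intro n
            have := co_iter h s n p 0
            rwa [h.zero] at this
          simp only [h5]
        rw [this]
        exact isOpen_iUnion fun n => hWo.preimage
          (h.cont.comp ((co_cont_s h n p 0).prodMk continuous_const))
      have hd : Dense (G ∪ (closure (interior I))ᶜ) := by
        rw [dense_iff_inter_open]
        intro V hV hVne
        by_cases hVI : (V ∩ interior I).Nonempty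
        · obtain ⟨v, hv⟩ := hVI
          obtain ⟨ε, hε, hball⟩ := Metric.isOpen_iff.1 (hV.inter isOpen_interior) v hv
          obtain ⟨q, hq1, hq2⟩ := exists_rat_btwn (show v < v + ε by linarith)
          obtain ⟨q', hq1', hq2'⟩ := exists_rat_btwn hq2
          have hsub : Icc (q : ℝ) q' ⊆ V ∩ interior I := by
            intro t ht
            refine hball ?_
            rw [Metric.mem_ball, Real.dist_eq, abs_lt]
            constructor <;> linarith [ht.1, ht.2]
          obtain ⟨n₀, hn₀⟩ := hGap (q, q') hq1' fun t ht => interior_subset (hsub ht).2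
          obtain ⟨n, hn, hnW⟩ := (frequently_atTop.1 hfreq) n₀
          obtain ⟨s, hs, hsW⟩ := hit h ho hq1'.le (hn₀ n hn) hnW
          exact ⟨s, (hsub hs).1, Or.inl ⟨n, hsW⟩⟩
        · obtain ⟨v, hv⟩ := hVne
          refine ⟨v, hv, Or.inr fun hc => ?_⟩
          obtain ⟨w, hw1, hw2⟩ := _root_.mem_closure_iff.1 hc V hV hv
          exact hVI ⟨w, hw1, hw2⟩
      have hres := residual_of_dense_open (hGo.union isClosed_closure.isOpen_compl) hd
      filter_upwards [hres] with s hs _ hsI
      rcases hs with hs | hs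
      · exact hs
      · exact absurd (subset_closure hsI) hs
    · exact Eventually.of_forall fun s hc => absurd hc hne
  filter_upwards [hres] with s hs hsI
  intro y hy
  rw [mem_closure_iff_nhds]
  intro V hV
  obtain ⟨W, hW, hyW, hWV⟩ := hBb.mem_nhds_iff.1 hV
  obtain ⟨n, hn⟩ := hs W hW ⟨y, hyW, hy⟩ hsI
  exact ⟨_, hWV hn, n, rfl⟩

end

end Pool.Agent.V5helper25.PA
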