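import Pool.Agent.V5helper25.PA.Co

/-!
# MP_3a2b62, circle extensions: null sets
-/

set_option autoImplicit false
set_option linter.unusedSectionVars false

open scoped Topology ENNReal
open MeasureTheory Filter Set Metric

universe u v

namespace Pool.Agent.V5helper25.PA

open Pool.Agent.TH80.OMS Pool.Agent.N813.CX Pool.Agent.N813.CX.CLOS Pool.Agent.V5helper25.TK
  Pool.Agent.V5helper25.TG Pool.Agent.V5helper25.EX

section

variable {N : Type u} [MetricSpace N] [CompactSpace N] [MeasurableSpace N] [BorelSpace N]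
  {B : Type v} [MetricSpace B] [MeasurableSpace B] [BorelSpace B]
  {F : N ≃ₜ N} {ψ : ℝ → N → N} {a : N → ℝ → ℝ} {π : N → B} {f : B → B}

/-- the points through which the fibre meets the complement of `P` in a set of positive length -/
def Bd (ψ : ℝ → N → N) (P : Set N) : Set N := {y | volume {t : ℝ | ψ t y ∉ P} ≠ 0}

theorem mem_Bd {P : Set N} {y : N} : y ∉ Bd ψ P ↔ ∀ᵐ t : ℝ, ψ t y ∈ P := by
  rw [ae_iff]
  simp [Bd]

theorem Bd_meas (h : TopExt F ψ a) {P : Set N} (hP : MeasurableSet P) :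
    MeasurableSet (Bd ψ P) := by
  have h1 : MeasurableSet {q : N × ℝ | ψ q.2 q.1 ∉ P} :=
    (h.cont.comp continuous_swap).measurable hP.compl
  have h2 : Measurable fun y : N => volume (Prod.mk y ⁻¹' {q : N × ℝ | ψ q.2 q.1 ∉ P}) :=
    measurable_measure_prodMk_left h1
  exact (h2 (measurableSet_singleton 0)).compl

theorem Bd_inv (h : TopExt F ψ a) {P : Set N} (u : ℝ) (y : N) :
    ψ u y ∈ Bd ψ P ↔ y ∈ Bd ψ P := by
  show volume {t : ℝ | ψ t (ψ u y) ∉ P} ≠ 0 ↔ volume {t : ℝ | ψ t y ∉ P} ≠ 0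
  have : {t : ℝ | ψ t (ψ u y) ∉ P} = (fun t => t + u) ⁻¹' {t : ℝ | ψ t y ∉ P} := by
    ext t
    show ψ t (ψ u y) ∉ P ↔ ψ (t + u) y ∉ P
    rw [h.add]
  rw [this, measure_preimage_add_right]

/-- invariant sets have the same measure for all measures with the same projection -/
theorem meas_eq (ho : OrbitMap F ψ π f) {E : Set N} (hE : MeasurableSet E)
    (hinv : ∀ u y, ψ u y ∈ E ↔ y ∈ E) : ∃ E' : Set B, MeasurableSet E' ∧ E = π ⁻¹' E' := by
  have h1 : π ⁻¹' (π '' E) = E := by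
    apply Subset.antisymm
    · rintro y ⟨z, hz, hzy⟩
      obtain ⟨t, rfl⟩ := (ho.eq z y).1 hzy
      exact (hinv t z).2 hz
    · exact subset_preimage_image π E
  refine ⟨π '' E, ?_, h1.symm⟩
  have h2 : MeasurableSet (π ⁻¹' (π '' E)) := by rwa [h1]
  have h3 : CompactSpace B := ⟨by rw [← ho.surj.range_eq]; exact isCompact_range ho.cont⟩
  exact (ho.cont.measurable.measurableSet_preimage_iff_of_surjective ho.surj).1 h2

variable {μ ν : Measure N} {m : Measure B}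

theorem null_inv (h : TopExt F ψ a) (ho : OrbitMap F ψ π f) {μ₁ μ₂ : Measure N}
    (h12 : μ₁.map π ≪ μ₂.map π) {E : Set N} (hE : MeasurableSet E)
    (hinv : ∀ u y, ψ u y ∈ E ↔ y ∈ E) (h0 : μ₂ E = 0) : μ₁ E = 0 := by
  obtain ⟨E', hE', rfl⟩ := meas_eq ho hE hinv
  rw [← Measure.map_apply ho.cont.measurable hE'] at h0 ⊢
  exact h12 h0

theorem ac_psi (h : TopExt F ψ a) (hq : ∀ t, μ.map (ψ t) ≪ μ) (t : ℝ) : μ ≪ μ.map (ψ t) := by
  have hm : ∀ t, Measurable (ψ t) := fun t =>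
    (h.cont.comp (continuous_const.prodMk continuous_id)).measurable
  have h1 : (μ.map (ψ (-t))).map (ψ t) ≪ μ.map (ψ t) := (hq (-t)).map (hm t)
  rw [Measure.map_map (hm t) (hm (-t))] at h1
  have h2 : ψ t ∘ ψ (-t) = id := funext fun y => by
    show ψ t (ψ (-t) y) = y
    rw [← h.add, add_neg_cancel, h.zero]
  rwa [h2, Measure.map_id] at h1

theorem swap_ae [SFinite μ] (h : TopExt F ψ a) {P : Set N} (hP : MeasurableSet P) :
    (∀ᵐ y ∂μ, ∀ᵐ t : ℝ, ψ t y ∈ P) ↔ ∀ᵐ t : ℝ, ∀ᵐ y ∂μ, ψ t y ∈ P := by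
  refine Measure.ae_ae_comm (p := fun y t => ψ t y ∈ P) ?_
  exact (h.cont.comp continuous_swap).measurable hP

/-- from almost all fibres to almost all points -/
theorem U1 [SFinite μ] (h : TopExt F ψ a) (ho : OrbitMap F ψ π f) (hq : ∀ t, μ.map (ψ t) ≪ μ)
    (hμν : μ.map π ≪ ν.map π) {P : Set N} (hP : MeasurableSet P)
    (hz : ∀ᵐ y ∂ν, ∀ᵐ t : ℝ, ψ t y ∈ P) : μ Pᶜ = 0 := by
  have h1 : ν (Bd ψ P) = 0 := by
    rw [measure_eq_zero_iff_ae_notMem]
    filter_upwards [hz] with y hy using mem_Bd.2 hy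
  have h2 : μ (Bd ψ P) = 0 := null_inv h ho hμν (Bd_meas h hP) (Bd_inv h) h1
  have h3 : ∀ᵐ y ∂μ, ∀ᵐ t : ℝ, ψ t y ∈ P := by
    filter_upwards [measure_eq_zero_iff_ae_notMem.1 h2] with y hy using mem_Bd.1 hy
  obtain ⟨t, ht⟩ := ((swap_ae h hP).1 h3).exists
  have hm : Measurable (ψ t) := (h.cont.comp (continuous_const.prodMk continuous_id)).measurable
  refine ac_psi h hq t ?_
  rw [Measure.map_apply hm hP.compl]
  rw [ae_iff] at ht
  exact ht

/-- from null sets to almost all fibres -/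
theorem U2 [SFinite μ] (h : TopExt F ψ a) (ho : OrbitMap F ψ π f) (hq : ∀ t, μ.map (ψ t) ≪ μ)
    (hνμ : ν.map π ≪ μ.map π) {Q : Set N} (hQ : μ Q = 0) :
    ∀ᵐ y ∂ν, ∀ᵐ t : ℝ, ψ t y ∉ Q := by
  set Q' := toMeasurable μ Q with hQ'
  have mQ' : MeasurableSet Q'ᶜ := (measurableSet_toMeasurable μ Q).compl
  have h0 : μ Q' = 0 := by rw [hQ', measure_toMeasurable]; exact hQ
  have h1 : ∀ᵐ t : ℝ, ∀ᵐ y ∂μ, ψ t y ∈ Q'ᶜ := by
    refine Eventually.of_forall fun t => ?_
    have hm : Measurable (ψ t) := (h.cont.comp (continuous_const.prodMk continuous_id)).measurable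
    have h2 := hq t h0
    rw [Measure.map_apply hm (measurableSet_toMeasurable μ Q)] at h2
    exact measure_eq_zero_iff_ae_notMem.1 h2
  have h3 : μ (Bd ψ Q'ᶜ) = 0 := by
    rw [measure_eq_zero_iff_ae_notMem]
    filter_upwards [(swap_ae h mQ').2 h1] with y hy using mem_Bd.2 hy
  have h4 : ν (Bd ψ Q'ᶜ) = 0 := null_inv h ho hνμ (Bd_meas h mQ') (Bd_inv h) h3
  filter_upwards [measure_eq_zero_iff_ae_notMem.1 h4] with y hy
  filter_upwards [mem_Bd.1 hy] with t ht hc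
  exact ht (subset_toMeasurable μ Q hc)

/-- a probability measure on `N` with projection `m` -/
theorem exists_lift [IsFiniteMeasure μ] [IsProbabilityMeasure m] (hπ : Continuous π)
    (hm : m ≪ μ.map π) : ∃ μ₀ : Measure N, IsProbabilityMeasure μ₀ ∧ μ₀.map π = m := by
  have hmap : IsFiniteMeasure (μ.map π) := inferInstance
  set g := m.rnDeriv (μ.map π) with hg
  have hgm : Measurable g := Measure.measurable_rnDeriv _ _
  have h1 : (μ.withDensity (g ∘ π)).map π = m := by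
    ext A hA
    rw [Measure.map_apply hπ.measurable hA, withDensity_apply _ (hπ.measurable hA)]
    have h2 : ∫⁻ y in π ⁻¹' A, (g ∘ π) y ∂μ = ∫⁻ x in A, g x ∂(μ.map π) :=
      (setLIntegral_map hA hgm hπ.measurable).symm
    rw [h2, ← withDensity_apply _ hA, Measure.withDensity_rnDeriv_eq _ _ hm]
  refine ⟨μ.withDensity (g ∘ π), ⟨?_⟩, h1⟩
  have h3 : (μ.withDensity (g ∘ π)).map π univ = 1 := by rw [h1]; exact measure_univ
  rwa [Measure.map_apply hπ.measurable MeasurableSet.univ] at h3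

end

end Pool.Agent.V5helper25.PA
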